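import Mathlib
import Pool.Agent.R856.FT5

set_option autoImplicit false

namespace Pool.Agent.Results.MP_9fec82_nt.QuestionOne

open Finset

/-- `∑_{0 ≤ k ≤ (p^a-1)/2} (42k+5) C(2k,k)^3 / 4096^k`. -/
def S (p a : ℕ) : ℚ :=
  ∑ k ∈ range ((p^a - 1)/2 + 1), (42 * (k:ℚ) + 5) * (((2*k).choose k : ℕ) : ℚ)^3 / 4096^k

/-- **Q1**: for every prime `p > 3` and every `a ≥ 1`,
`p^{-a} ∑_{0 ≤ k ≤ (p^a-1)/2} (42k+5) C(2k,k)^3 / 4096^k ≡ (-1/p^a) (5 - (3p/4) H_{p-1}) (mod p^4)`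
in the ring of rationals whose denominator is prime to `p`. -/
theorem result (p : ℕ) (hp : p.Prime) (h3 : 3 < p) (a : ℕ) (ha : 1 ≤ a) :
    ¬ p ∣ ((S p a / (p:ℚ)^a -
      (jacobiSym (-1) (p^a) : ℚ) * (5 - 3 * (p:ℚ) / 4 * ∑ j ∈ Icc 1 (p-1), 1/(j:ℚ))) / (p:ℚ)^4).den := by
  have _inst : Fact p.Prime := ⟨hp⟩
  have h5 : 5 ≤ p := by
    rcases Nat.lt_or_ge p 5 with h | h
    · have : p = 4 := by omega
      subst this; norm_num at hp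
    · exact h
  have hodd : Odd (p^a) := (hp.odd_of_ne_two (by omega)).pow
  obtain ⟨R, hR⟩ := hodd
  have hN : 2*R+1 = p^a := hR.symm
  obtain ⟨y, hy, e⟩ := Pool.Agent.R856.FT.final (p := p) ha hN h5
  have hS : S p a / (p:ℚ)^a = Pool.Agent.R856.FT.TT R := by
    unfold S Pool.Agent.R856.FT.TT Pool.Agent.R856.FT.t
    rw [hN, show (p^a - 1)/2 = R by omega]
    push_cast
    congr 1
    apply sum_congr rfl
    intro k _
    ring
  have hJ : (jacobiSym (-1) (p^a) : ℚ) = (-1)^R := by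
    rw [jacobiSym.at_neg_one ⟨R, hR⟩, ZMod.χ₄_eq_neg_one_pow (by omega), show p^a/2 = R by omega]
    push_cast
    rfl
  have hp4 : (p:ℚ)^4 ≠ 0 := pow_ne_zero 4 (by exact_mod_cast hp.ne_zero)
  have e2 : (S p a / (p:ℚ)^a -
      (jacobiSym (-1) (p^a) : ℚ) * (5 - 3 * (p:ℚ) / 4 * ∑ j ∈ Icc 1 (p-1), 1/(j:ℚ))) / (p:ℚ)^4 = y := by
    rw [hS, hJ, div_eq_iff hp4]
    unfold Pool.Agent.R856.FT.Hn at e
    linear_combination e
  rw [e2]
  exact hy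

end Pool.Agent.Results.MP_9fec82_nt.QuestionOne
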